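import Mathlib

/-! MP_47cd0b_co, row D1 of RankFourLarge in indexed form: the count of group divisible linear
spaces with a thin relation. -/

set_option autoImplicit false
set_option linter.unusedSectionVars false

namespace Pool.Agent.Helper48.RF

open Finset Classical

theorem gdd_thin {X K I : Type} (P : Finset X) (cl : X → K) (B : Finset I) (tr : I → Finset X)
    (t0 : ℕ) (th : X → X → Prop)
    (hB : ∀ l ∈ B, tr l ⊆ P ∧ (tr l).card ≤ t0)
    (hcl : ∀ l ∈ B, ∀ x ∈ tr l, ∀ y ∈ tr l, x ≠ y → cl x ≠ cl y)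
    (hex : ∀ x ∈ P, ∀ y ∈ P, cl x ≠ cl y → ¬ th x y → ∃ l ∈ B, x ∈ tr l ∧ y ∈ tr l)
    (huniq : ∀ l ∈ B, ∀ m ∈ B, ∀ x y, x ≠ y → x ∈ tr l → y ∈ tr l → x ∈ tr m → y ∈ tr m → l = m)
    {l0 : I} (hl0 : l0 ∈ B) (h0 : (tr l0).card = t0) (Th : ℕ)
    (hTh : ((tr l0 ×ˢ (P \ tr l0)).filter (fun q => th q.1 q.2)).card ≤ Th) :
    t0 * (t0 - 1) * (P.card + 1) ≤
      (t0 - 1) * ∑ l ∈ B, (tr l).card + t0 * Th + t0 * (t0 - 1) * t0 := by
  have hl0P := (hB l0 hl0).1
  set r : X → ℕ := fun x => (B.filter (fun l => x ∈ tr l)).card with hr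
  have hT : ∑ l ∈ B, (tr l).card = ∑ x ∈ P, r x := by
    have h1 : ∀ l ∈ B, (tr l).card = (P.filter (fun x => x ∈ tr l)).card := by
      intro l hl
      congr 1
      ext x
      simp only [mem_filter]
      exact ⟨fun h => ⟨(hB l hl).1 h, h⟩, fun h => h.2⟩
    rw [sum_congr rfl h1]
    simp only [hr, card_eq_sum_ones, sum_filter]
    exact sum_comm
  have hThe : ((tr l0 ×ˢ (P \ tr l0)).filter (fun q => th q.1 q.2)).card =
      ∑ x ∈ tr l0, ((P \ tr l0).filter (fun y => th x y)).card := by
    simp only [card_eq_sum_ones, sum_filter, sum_product]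
  have hThe' : ((tr l0 ×ˢ (P \ tr l0)).filter (fun q => th q.1 q.2)).card =
      ∑ y ∈ P \ tr l0, ((tr l0).filter (fun x => th x y)).card := by
    rw [hThe]
    simp only [card_eq_sum_ones, sum_filter]
    exact sum_comm
  -- points off `l0`
  have ha : ∀ y ∈ P \ tr l0, t0 ≤ r y + 1 + ((tr l0).filter (fun x => th x y)).card := by
    intro y hy
    rw [mem_sdiff] at hy
    have h1 : ((tr l0).filter (fun x => cl x ≠ cl y ∧ ¬ th x y)).card ≤ r y := by
      have hch : ∀ x ∈ (tr l0).filter (fun x => cl x ≠ cl y ∧ ¬ th x y),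
          ∃ l ∈ B, x ∈ tr l ∧ y ∈ tr l := by
        intro x hx
        rw [mem_filter] at hx
        exact hex x (hl0P hx.1) y hy.1 hx.2.1 hx.2.2
      have hI : Nonempty I := ⟨l0⟩
      choose! f hf using hch
      refine card_le_card_of_injOn f (fun x hx => ?_) ?_
      · have := hf x hx
        simp only [coe_filter, Set.mem_ofPred_eq]
        exact ⟨this.1, this.2.2⟩
      · intro x hx w hw hxw
        by_contra hne
        have hx' := hf x hx
        have hw' := hf w hw
        rw [← hxw] at hw'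
        have hxl := (mem_filter.mp hx).1
        have hwl := (mem_filter.mp hw).1
        have := huniq l0 hl0 (f x) hx'.1 x w hne hxl hwl hx'.2.1 hw'.2.1
        exact hy.2 (this ▸ hx'.2.2)
    have h2 : ((tr l0).filter (fun x => cl x = cl y)).card ≤ 1 := by
      rw [card_le_one]
      intro x hx w hw
      rw [mem_filter] at hx hw
      by_contra hne
      exact hcl l0 hl0 x hx.1 w hw.1 hne (hx.2.trans hw.2.symm)
    have h3 : (tr l0) ⊆ ((tr l0).filter (fun x => cl x ≠ cl y ∧ ¬ th x y) ∪
        (tr l0).filter (fun x => cl x = cl y)) ∪ (tr l0).filter (fun x => th x y) := by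
      intro x hx
      simp only [mem_union, mem_filter]
      tauto
    have h4 := card_le_card h3
    have h5 := card_union_le ((tr l0).filter (fun x => cl x ≠ cl y ∧ ¬ th x y) ∪
        (tr l0).filter (fun x => cl x = cl y)) ((tr l0).filter (fun x => th x y))
    have h6 := card_union_le ((tr l0).filter (fun x => cl x ≠ cl y ∧ ¬ th x y))
        ((tr l0).filter (fun x => cl x = cl y))
    omega
  -- points on `l0`
  have hb : ∀ x ∈ tr l0, P.card ≤ (P.filter (fun y => cl y = cl x)).card + r x * (t0 - 1) +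
      ((P \ tr l0).filter (fun y => th x y)).card := by
    intro x hx
    have h1 : P ⊆ (P.filter (fun y => cl y = cl x) ∪
        (B.filter (fun l => x ∈ tr l)).biUnion (fun l => (tr l).erase x)) ∪
        (P \ tr l0).filter (fun y => th x y) := by
      intro y hy
      rw [mem_union, mem_union, mem_filter]
      by_cases hyx : cl y = cl x
      · exact Or.inl (Or.inl ⟨hy, hyx⟩)
      · have hne : y ≠ x := by
          rintro rfl
          exact hyx rfl
        by_cases hyl : y ∈ tr l0
        · left; right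
          rw [mem_biUnion]
          exact ⟨l0, mem_filter.mpr ⟨hl0, hx⟩, mem_erase.mpr ⟨hne, hyl⟩⟩
        · by_cases hth : th x y
          · right
            exact mem_filter.mpr ⟨mem_sdiff.mpr ⟨hy, hyl⟩, hth⟩
          · left; right
            obtain ⟨l, hl, hxl, hyl'⟩ := hex x (hl0P hx) y hy (fun h => hyx h.symm) hth
            rw [mem_biUnion]
            exact ⟨l, mem_filter.mpr ⟨hl, hxl⟩, mem_erase.mpr ⟨hne, hyl'⟩⟩
    have h2 := card_le_card h1
    have h3 := card_union_le (P.filter (fun y => cl y = cl x) ∪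
        (B.filter (fun l => x ∈ tr l)).biUnion (fun l => (tr l).erase x))
        ((P \ tr l0).filter (fun y => th x y))
    have h4 := card_union_le (P.filter (fun y => cl y = cl x))
        ((B.filter (fun l => x ∈ tr l)).biUnion (fun l => (tr l).erase x))
    have h5 : ((B.filter (fun l => x ∈ tr l)).biUnion (fun l => (tr l).erase x)).card ≤
        r x * (t0 - 1) := by
      refine card_biUnion_le_card_mul _ _ _ ?_
      intro l hl
      rw [mem_filter] at hl
      rw [card_erase_of_mem hl.2]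
      have := (hB l hl.1).2
      omega
    omega
  have hc : ∑ x ∈ tr l0, (P.filter (fun y => cl y = cl x)).card ≤ P.card := by
    rw [← card_biUnion]
    · exact card_le_card (biUnion_subset.mpr fun x _ => filter_subset _ _)
    · intro x hx w hw hne
      rw [Function.onFun, disjoint_left]
      intro y hy hy'
      rw [mem_filter] at hy hy'
      exact hcl l0 hl0 x hx w hw hne (hy.2.symm.trans hy'.2)
  have hd : t0 * P.card ≤ P.card + (∑ x ∈ tr l0, r x) * (t0 - 1) + Th := by
    have h1 : ∑ _x ∈ tr l0, P.card ≤ ∑ x ∈ tr l0, ((P.filter (fun y => cl y = cl x)).card +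
        r x * (t0 - 1) + ((P \ tr l0).filter (fun y => th x y)).card) := sum_le_sum hb
    rw [sum_const, smul_eq_mul, h0, sum_add_distrib, sum_add_distrib, ← sum_mul, ← hThe] at h1
    omega
  have he : t0 * (P.card - t0) ≤ ∑ x ∈ P \ tr l0, r x + (P.card - t0) + Th := by
    have h1 : (P \ tr l0).card = P.card - t0 := by
      rw [card_sdiff_of_subset hl0P, h0]
    have h2 : ∑ _x ∈ P \ tr l0, t0 ≤ ∑ y ∈ P \ tr l0,
        (r y + 1 + ((tr l0).filter (fun x => th x y)).card) := sum_le_sum ha
    rw [sum_const, smul_eq_mul, sum_add_distrib, sum_add_distrib, ← hThe', sum_const,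
      smul_eq_mul, mul_one, h1, mul_comm] at h2
    omega
  have hf : ∑ l ∈ B, (tr l).card = ∑ x ∈ P \ tr l0, r x + ∑ x ∈ tr l0, r x := by
    rw [hT, sum_sdiff hl0P]
  have hP : t0 ≤ P.card := h0 ▸ card_le_card hl0P
  rw [hf]
  obtain ⟨d, hd'⟩ : ∃ d, P.card = t0 + d := ⟨P.card - t0, by omega⟩
  rw [hd'] at hd he ⊢
  have e1 : t0 + d - t0 = d := by omega
  rw [e1] at he
  rcases Nat.eq_zero_or_pos t0 with hz | hpos
  · rw [hz]; simp
  · obtain ⟨u, hu⟩ : ∃ u, t0 = u + 1 := ⟨t0 - 1, by omega⟩
    rw [hu] at hd he ⊢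
    have e2 : u + 1 - 1 = u := by omega
    rw [e2] at hd ⊢
    have h1 : u * ((u + 1) * d) ≤ u * (∑ x ∈ P \ tr l0, r x + d + Th) :=
      Nat.mul_le_mul_left _ he
    nlinarith

end Pool.Agent.Helper48.RF
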