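import Pool.Agent.Helper20.SW.Cone
import Pool.Agent.Helper48.RF.Thin

/-! MP_47cd0b_co, row D2b of RankFourLarge: the fat sum plus a quarter of the family is at least
one for every user. -/

set_option autoImplicit false
set_option linter.unusedSectionVars false

namespace Pool.Agent.Helper48.RF

open Finset Classical H20SW

variable {Y U E G P R : Type} [Fintype Y] [Fintype U] [Fintype E]

/-- the class of a point of `Q` at `z`: its excluded line, or itself -/
noncomputable def cls (C : Cone Y U E G P R) (z : U) (x : Y) : E ⊕ Y :=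
  if h : ∃ l, C.on x l ∧ ¬ C.ok z l then Sum.inl (Classical.choose h) else Sum.inr x

theorem cls_of_bad (C : Cone Y U E G P R) {z : U} {x : Y} {l : E} (hx : ¬ C.tip z x)
    (h1 : C.on x l) (h2 : ¬ C.ok z l) : cls C z x = Sum.inl l := by
  have h : ∃ l, C.on x l ∧ ¬ C.ok z l := ⟨l, h1, h2⟩
  have h3 := Classical.choose_spec h
  unfold cls
  rw [dif_pos h]
  exact congrArg Sum.inl (C.bad_uniq z x _ _ hx h3.1 h1 h3.2 h2)

theorem ok_of_cls_ne (C : Cone Y U E G P R) {z : U} {x y : Y} {l : E} (hx : ¬ C.tip z x)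
    (hy : ¬ C.tip z y) (h : cls C z x ≠ cls C z y) (hxl : C.on x l) (hyl : C.on y l) :
    C.ok z l := by
  by_contra hno
  exact h ((cls_of_bad C hx hxl hno).trans (cls_of_bad C hy hyl hno).symm)

/-- two points of an allowed line are in different classes -/
theorem cls_ne_of_ok (C : Cone Y U E G P R) {z : U} {x y : Y} {l : E} (hxy : x ≠ y)
    (hxl : C.on x l) (hyl : C.on y l) (hok : C.ok z l) : cls C z x ≠ cls C z y := by
  intro h
  unfold cls at h
  by_cases h1 : ∃ l, C.on x l ∧ ¬ C.ok z l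
  · by_cases h2 : ∃ l, C.on y l ∧ ¬ C.ok z l
    · rw [dif_pos h1, dif_pos h2] at h
      have h3 := Classical.choose_spec h1
      have h4 := Classical.choose_spec h2
      have h5 : Classical.choose h1 = Classical.choose h2 := Sum.inl.inj h
      rw [← h5] at h4
      have h6 := C.uniq x y _ _ hxy hxl hyl h3.1 h4.1
      exact h3.2 (h6 ▸ hok)
    · rw [dif_pos h1, dif_neg h2] at h
      exact absurd h Sum.inl_ne_inr
  · by_cases h2 : ∃ l, C.on y l ∧ ¬ C.ok z l
    · rw [dif_neg h1, dif_pos h2] at h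
      exact absurd h Sum.inr_ne_inl
    · rw [dif_neg h1, dif_neg h2] at h
      exact hxy (Sum.inr.inj h)

theorem one_le_s (C : Cone Y U E G P R) (z : U) (y : Y) : 1 ≤ C.s := by
  refine le_trans ?_ (C.card_ln z y)
  exact Finset.card_pos.mpr ⟨z, by simp⟩

theorem card_cls (C : Cone Y U E G P R) (z : U) (X : Finset Y) (hX : ∀ x ∈ X, ¬ C.tip z x)
    (x : Y) (hx : x ∈ X) : (X.filter (fun y => cls C z y = cls C z x)).card ≤ C.s := by
  by_cases h1 : ∃ l, C.on x l ∧ ¬ C.ok z l
  · obtain ⟨l, hl, hno⟩ := h1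
    have h2 := cls_of_bad C (hX x hx) hl hno
    refine le_trans (card_le_card ?_) (C.short l)
    intro y hy
    rw [mem_filter] at hy ⊢
    refine ⟨mem_univ _, ?_⟩
    have h3 := hy.2
    rw [h2] at h3
    unfold cls at h3
    by_cases h4 : ∃ l, C.on y l ∧ ¬ C.ok z l
    · rw [dif_pos h4] at h3
      have h5 := Classical.choose_spec h4
      rw [Sum.inl.inj h3] at h5
      exact h5.1
    · rw [dif_neg h4] at h3
      exact absurd h3 Sum.inr_ne_inl
  · refine le_trans (card_le_card (t := {x}) ?_) (by rw [card_singleton]; exact one_le_s C z x)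
    intro y hy
    rw [mem_filter] at hy
    have h3 := hy.2
    unfold cls at h3
    rw [dif_neg h1] at h3
    by_cases h4 : ∃ l, C.on y l ∧ ¬ C.ok z l
    · rw [dif_pos h4] at h3
      exact absurd h3 Sum.inl_ne_inr
    · rw [dif_neg h4] at h3
      rw [mem_singleton]
      exact Sum.inr.inj h3

section

variable (C : Cone Y U E G P R) {p D : ℕ} {J : Finset E} {al be : E → Y} (z : U)

/-- the points of `Q` which are not saturated and not on `zo` -/
noncomputable def Xs (C : Cone Y U E G P R) (D : ℕ) (J : Finset E) (al be : E → Y) (z : U) :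
    Finset Y := univ.filter fun y => Cone.dg J al be y ≠ D ∧ ¬ C.tip z y

/-- the saturated points not on `zo` -/
noncomputable def Bs (C : Cone Y U E G P R) (D : ℕ) (J : Finset E) (al be : E → Y) (z : U) :
    Finset Y := univ.filter fun y => Cone.dg J al be y = D ∧ ¬ C.tip z y

/-- the trace -/
noncomputable def tr (C : Cone Y U E G P R) (X : Finset Y) (l : E) : Finset Y :=
  X.filter fun y => C.on y l

theorem card_Xs_Bs : Fintype.card Y ≤ (Xs C D J al be z).card + (Bs C D J al be z).card + 1 := by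
  have h1 : (univ : Finset Y) ⊆ (Xs C D J al be z ∪ Bs C D J al be z) ∪
      univ.filter (fun y => C.tip z y) := by
    intro y _
    unfold Xs Bs
    simp only [mem_union, mem_filter, mem_univ, true_and]
    tauto
  have h2 : (univ.filter (fun y => C.tip z y)).card ≤ 1 := by
    rw [card_le_one]
    intro x hx y hy
    simp only [mem_filter, mem_univ, true_and] at hx hy
    exact C.tip_uniq z x y hx hy
  have h3 := card_le_card h1
  rw [card_univ] at h3
  have h4 := card_union_le (Xs C D J al be z ∪ Bs C D J al be z)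
    (univ.filter (fun y => C.tip z y))
  have h5 := card_union_le (Xs C D J al be z) (Bs C D J al be z)
  omega

theorem Bs_le (hJ : C.Fam p D J al be) :
    (Bs C D J al be z).card * (D - 1) ≤ 2 * C.Jz J z := by
  set Jo := J.filter (fun l => C.ok z l) with hJo
  have h1 : ∀ y ∈ Bs C D J al be z, D - 1 ≤ (Jo.filter (fun l => al l = y ∨ be l = y)).card := by
    intro y hy
    unfold Bs at hy
    rw [mem_filter] at hy
    obtain ⟨-, hy1, hy2⟩ := hy
    unfold Cone.dg at hy1
    have h2 : ((J.filter (fun l => al l = y ∨ be l = y)).filter (fun l => ¬ C.ok z l)).card ≤ 1 := by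
      rw [card_le_one]
      intro l hl m hm
      simp only [mem_filter] at hl hm
      have hly : C.on y l := by
        rcases hl.1.2 with h | h
        · exact h ▸ hJ.ona l hl.1.1
        · exact h ▸ hJ.onb l hl.1.1
      have hmy : C.on y m := by
        rcases hm.1.2 with h | h
        · exact h ▸ hJ.ona m hm.1.1
        · exact h ▸ hJ.onb m hm.1.1
      exact C.bad_uniq z y l m hy2 hly hmy hl.2 hm.2
    have h3 := card_filter_add_card_filter_not (s := J.filter (fun l => al l = y ∨ be l = y))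
      (fun l => C.ok z l)
    have h4 : Jo.filter (fun l => al l = y ∨ be l = y) =
        (J.filter (fun l => al l = y ∨ be l = y)).filter (fun l => C.ok z l) := by
      rw [hJo, filter_filter, filter_filter]
      exact filter_congr fun l _ => And.comm
    rw [h4]
    omega
  have h5 : (Bs C D J al be z).card * (D - 1) ≤
      ∑ y ∈ Bs C D J al be z, (Jo.filter (fun l => al l = y ∨ be l = y)).card := by
    rw [← smul_eq_mul, ← sum_const]
    exact sum_le_sum h1
  refine h5.trans ?_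
  have h6 : ∑ y ∈ Bs C D J al be z, (Jo.filter (fun l => al l = y ∨ be l = y)).card =
      ∑ l ∈ Jo, ((Bs C D J al be z).filter (fun y => al l = y ∨ be l = y)).card := by
    simp only [card_eq_sum_ones, sum_filter]
    exact sum_comm
  rw [h6]
  have h7 : ∀ l ∈ Jo, ((Bs C D J al be z).filter (fun y => al l = y ∨ be l = y)).card ≤ 2 := by
    intro l _
    refine le_trans (card_le_card (t := {al l, be l}) ?_) card_le_two
    intro y hy
    rw [mem_filter] at hy
    rw [mem_insert, mem_singleton]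
    rcases hy.2 with h | h
    · exact Or.inl h.symm
    · exact Or.inr h.symm
  refine (sum_le_sum h7).trans ?_
  rw [sum_const, smul_eq_mul, mul_comm]
  exact le_refl _

/-- the allowed thin lines with two points in `Xs` have their pair in the family -/
theorem thin_mem (hJ : C.Fam p D J al be) {l : E} (hok : C.ok z l) (ht : C.tl l < p)
    (h2 : 2 ≤ (tr C (Xs C D J al be z) l).card) : l ∈ J.filter (fun l => C.ok z l) := by
  rw [mem_filter]
  refine ⟨?_, hok⟩
  by_contra hl
  obtain ⟨x, hx, y, hy, hxy⟩ := one_lt_card.mp (by omega : 1 < (tr C (Xs C D J al be z) l).card)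
  unfold tr Xs at hx hy
  simp only [mem_filter, mem_univ, true_and] at hx hy
  rcases hJ.maxl l hl ht x y hxy hx.2 hy.2 with h | h
  · exact hx.1.1 h
  · exact hy.1.1 h

theorem card_thin (hJ : C.Fam p D J al be) :
    (univ.filter (fun l => C.ok z l ∧ C.tl l < p ∧
      2 ≤ (tr C (Xs C D J al be z) l).card)).card ≤ C.Jz J z := by
  refine card_le_card ?_
  intro l hl
  simp only [mem_filter, mem_univ, true_and] at hl
  exact thin_mem C z hJ hl.1 hl.2.1 hl.2.2

theorem tl_lt (C : Cone Y U E G P R) {z : U} {l : E} (hok : C.ok z l) :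
    C.tl l + 1 ≤ Fintype.card Y := by
  have h1 := C.card_pl z l hok
  have h2 : 1 ≤ (univ.filter fun w => C.pl w l = C.pl z l).card :=
    card_pos.mpr ⟨z, by simp⟩
  unfold Cone.tl
  omega

theorem tr_le_tl (C : Cone Y U E G P R) (X : Finset Y) (l : E) :
    (tr C X l).card ≤ C.tl l := by
  unfold tr Cone.tl
  exact card_le_card (fun y hy => by
    rw [mem_filter] at hy ⊢
    exact ⟨mem_univ _, hy.2⟩)

end

/-- Few points on the traces: there are many fat allowed lines. -/
theorem case_small (C : Cone Y U E G P R) {a : ℕ} (ha : 3000 ≤ a)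
    (hN : a ^ 40 ≤ Fintype.card Y) (hs : C.s ≤ a ^ 34) {J : Finset E} {al be : E → Y}
    (hJ : C.Fam (a ^ 19) a J al be) (z : U) (hJz : C.Jz J z < 4 * Fintype.card Y)
    (hall : ∀ l, C.ok z l → (tr C (Xs C a J al be z) l).card ≤ 10 * a ^ 19) :
    Fintype.card Y ≤ (univ.filter (fun l => C.ok z l ∧ a ^ 19 ≤ C.tl l)).card := by
  set X := Xs C a J al be z with hX
  set N := Fintype.card Y with hNd
  set Ft := univ.filter (fun l => C.ok z l ∧ a ^ 19 ≤ C.tl l) with hFt
  have hXt : ∀ x ∈ X, ¬ C.tip z x := by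
    intro x hx
    rw [hX] at hx
    unfold Xs at hx
    simp only [mem_filter, mem_univ, true_and] at hx
    exact hx.2
  -- the pairs
  set S := (X ×ˢ X).filter (fun q => cls C z q.1 ≠ cls C z q.2) with hS
  have h1 : X.card * X.card ≤ S.card + X.card * C.s := by
    have e0 : X ×ˢ X ⊆ S ∪ (X ×ˢ X).filter (fun q => cls C z q.1 = cls C z q.2) := by
      intro q hq
      rw [mem_union]
      by_cases h : cls C z q.1 = cls C z q.2
      · exact Or.inr (mem_filter.mpr ⟨hq, h⟩)
      · exact Or.inl (mem_filter.mpr ⟨hq, h⟩)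
    have e1 := (card_le_card e0).trans (card_union_le _ _)
    rw [card_product] at e1
    have e2 : ((X ×ˢ X).filter (fun q => cls C z q.1 = cls C z q.2)).card ≤ X.card * C.s := by
      have e3 : ((X ×ˢ X).filter (fun q => cls C z q.1 = cls C z q.2)).card =
          ∑ x ∈ X, (X.filter (fun y => cls C z x = cls C z y)).card := by
        simp only [card_eq_sum_ones, sum_filter, sum_product]
      rw [e3, ← smul_eq_mul, ← sum_const]
      refine sum_le_sum fun x hx => ?_
      refine le_trans (card_le_card ?_) (card_cls C z X hXt x hx)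
      intro y hy
      rw [mem_filter] at hy
      exact mem_filter.mpr ⟨hy.1, hy.2.symm⟩
    exact e1.trans (Nat.add_le_add_left e2 _)
  set Lq := univ.filter (fun l => C.ok z l ∧ 2 ≤ (tr C X l).card) with hLq
  have h2 : S.card ≤ Lq.card * ((10 * a ^ 19) * (10 * a ^ 19)) := by
    have e1 : S ⊆ Lq.biUnion (fun l => tr C X l ×ˢ tr C X l) := by
      intro q hq
      rw [hS, mem_filter, mem_product] at hq
      obtain ⟨⟨hq1, hq2⟩, hne⟩ := hq
      have hq12 : q.1 ≠ q.2 := fun h => hne (by rw [h])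
      obtain ⟨l, hl1, hl2⟩ := C.join q.1 q.2 hq12
      have hok := ok_of_cls_ne C (hXt _ hq1) (hXt _ hq2) hne hl1 hl2
      have m1 : q.1 ∈ tr C X l := mem_filter.mpr ⟨hq1, hl1⟩
      have m2 : q.2 ∈ tr C X l := mem_filter.mpr ⟨hq2, hl2⟩
      rw [mem_biUnion]
      refine ⟨l, ?_, mem_product.mpr ⟨m1, m2⟩⟩
      rw [hLq, mem_filter]
      exact ⟨mem_univ _, hok, one_lt_card.mpr ⟨q.1, m1, q.2, m2, hq12⟩⟩
    refine (card_le_card e1).trans (card_biUnion_le_card_mul _ _ _ ?_)
    intro l hl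
    rw [hLq, mem_filter] at hl
    rw [card_product]
    exact Nat.mul_le_mul (hall l hl.2.1) (hall l hl.2.1)
  have h3 : Lq.card ≤ Ft.card + C.Jz J z := by
    have e1 : Lq ⊆ Ft ∪ univ.filter (fun l => C.ok z l ∧ C.tl l < a ^ 19 ∧
        2 ≤ (tr C X l).card) := by
      intro l hl
      rw [hLq, mem_filter] at hl
      rw [mem_union, hFt, mem_filter, mem_filter]
      rcases le_or_gt (a ^ 19) (C.tl l) with h | h
      · exact Or.inl ⟨mem_univ _, hl.2.1, h⟩
      · exact Or.inr ⟨mem_univ _, hl.2.1, h, hl.2.2⟩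
    have e2 := card_le_card e1
    have e3 := card_union_le Ft (univ.filter (fun l => C.ok z l ∧ C.tl l < a ^ 19 ∧
        2 ≤ (tr C X l).card))
    have e4 := card_thin C z hJ
    rw [← hX] at e4
    omega
  have h4 := card_Xs_Bs C (D := a) (J := J) (al := al) (be := be) z
  have h5 := Bs_le C z hJ
  rw [← hX, ← hNd] at h4
  set B := (Bs C a J al be z).card with hB
  -- numbers
  have p1 : a ^ 38 * a ^ 2 = a ^ 40 := by rw [← pow_add]
  have p2 : 9000000 ≤ a ^ 2 := by nlinarith
  have p3 : 9000000 * a ^ 38 ≤ N := by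
    calc 9000000 * a ^ 38 = a ^ 38 * 9000000 := by ring
      _ ≤ a ^ 38 * a ^ 2 := Nat.mul_le_mul_left _ p2
      _ = a ^ 40 := p1
      _ ≤ N := hN
  have p4 : a ^ 34 ≤ a ^ 38 := Nat.pow_le_pow_right (by omega) (by norm_num)
  have p5 : 9000000 * C.s ≤ N := by omega
  have p6 : (10 * a ^ 19) * (10 * a ^ 19) = 100 * a ^ 38 := by ring
  rw [p6] at h2
  have hBl : 2999 * B ≤ 8 * N := by
    have e1 : B * 2999 ≤ B * (a - 1) := Nat.mul_le_mul_left _ (by omega)
    omega
  have hN1 : 9000000 ≤ N := by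
    have : 1 ≤ a ^ 38 := Nat.one_le_pow _ _ (by omega)
    omega
  have hM : N ≤ 2 * X.card := by omega
  by_contra hcon
  push Not at hcon
  have hL5 : Lq.card ≤ 5 * N := by omega
  have h6 : X.card * X.card ≤ 5 * N * (100 * a ^ 38) + X.card * C.s := by
    have := Nat.mul_le_mul_right (100 * a ^ 38) hL5
    omega
  have hXN : X.card ≤ N := by
    rw [hNd, ← card_univ]
    exact card_le_univ _
  have h7 : 5 * N * (100 * a ^ 38) * 18000 ≤ N * N := by
    calc 5 * N * (100 * a ^ 38) * 18000 = N * (9000000 * a ^ 38) := by ring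
      _ ≤ N * N := Nat.mul_le_mul_left _ p3
  have h8 : X.card * C.s * 9000000 ≤ N * N := by
    calc X.card * C.s * 9000000 = X.card * (9000000 * C.s) := by ring
      _ ≤ N * N := Nat.mul_le_mul hXN p5
  have h9 : N * N ≤ 4 * (X.card * X.card) := by nlinarith
  have h10 : 0 < N * N := Nat.mul_pos (by omega) (by omega)
  omega

/-- A big trace: the count with the thin relation. -/
theorem case_large (C : Cone Y U E G P R) {a : ℕ} (ha : 3000 ≤ a)
    (hN : a ^ 40 ≤ Fintype.card Y) (hs : C.s ≤ a ^ 34) {J : Finset E} {al be : E → Y}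
    (hJ : C.Fam (a ^ 19) a J al be) (z : U) {l0 : E} (hl0 : C.ok z l0)
    (hfat : a ^ 19 ≤ C.tl l0)
    (hbig : 10 * a ^ 19 ≤ (tr C (Xs C a J al be z) l0).card)
    (hmax : ∀ l, C.ok z l → a ^ 19 ≤ C.tl l → (tr C (Xs C a J al be z) l).card ≤
      (tr C (Xs C a J al be z) l0).card) :
    (1 : ℝ) ≤ C.Fz (a ^ 19) z + (C.Jz J z : ℝ) / (4 * Fintype.card Y) := by
  set X := Xs C a J al be z with hX
  set N := Fintype.card Y with hNd
  set t0 := (tr C X l0).card with ht0
  set p := a ^ 19 with hp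
  set Ft := univ.filter (fun l => C.ok z l ∧ p ≤ C.tl l) with hFt
  have hXt : ∀ x ∈ X, ¬ C.tip z x := by
    intro x hx
    rw [hX] at hx
    unfold Xs at hx
    simp only [mem_filter, mem_univ, true_and] at hx
    exact hx.2
  have hp1 : 1 ≤ p := Nat.one_le_pow _ _ (by omega)
  -- numbers
  have q1 : a ^ 34 * a ^ 6 = a ^ 40 := by rw [← pow_add]
  have q2 : 100 ≤ a ^ 6 := by
    calc 100 ≤ a ^ 1 := by rw [pow_one]; omega
      _ ≤ a ^ 6 := Nat.pow_le_pow_right (by omega) (by norm_num)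
  have q3 : 100 * C.s ≤ N := by
    calc 100 * C.s ≤ 100 * a ^ 34 := Nat.mul_le_mul_left _ hs
      _ = a ^ 34 * 100 := by ring
      _ ≤ a ^ 34 * a ^ 6 := Nat.mul_le_mul_left _ q2
      _ = a ^ 40 := q1
      _ ≤ N := hN
  have htls : ∀ l, C.tl l ≤ C.s := fun l => C.short l
  have ht0s : t0 ≤ C.s := (tr_le_tl C X l0).trans (htls l0)
  have hN0 : 100 * t0 ≤ N := by omega
  -- the thin relation
  set th : Y → Y → Prop := fun x y => ∃ l, C.on x l ∧ C.on y l ∧ C.ok z l ∧ C.tl l < p with hth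
  have key := gdd_thin X (cls C z) Ft (fun l => tr C X l) t0 th
    (fun l hl => by
      rw [hFt, mem_filter] at hl
      exact ⟨filter_subset _ _, hmax l hl.2.1 hl.2.2⟩)
    (fun l hl x hx y hy hxy => by
      rw [hFt, mem_filter] at hl
      exact cls_ne_of_ok C hxy (mem_filter.mp hx).2 (mem_filter.mp hy).2 hl.2.1)
    (fun x hx y hy hne hnt => by
      have hxy : x ≠ y := fun h => hne (by rw [h])
      obtain ⟨l, hl1, hl2⟩ := C.join x y hxy
      have hok := ok_of_cls_ne C (hXt _ hx) (hXt _ hy) hne hl1 hl2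
      refine ⟨l, ?_, mem_filter.mpr ⟨hx, hl1⟩, mem_filter.mpr ⟨hy, hl2⟩⟩
      rw [hFt, mem_filter]
      refine ⟨mem_univ _, hok, ?_⟩
      by_contra hlt
      exact hnt ⟨l, hl1, hl2, hok, not_le.mp hlt⟩)
    (fun l _ m _ x y hxy h1 h2 h3 h4 => C.uniq x y l m hxy (mem_filter.mp h1).2
      (mem_filter.mp h2).2 (mem_filter.mp h3).2 (mem_filter.mp h4).2)
    (l0 := l0) (by rw [hFt, mem_filter]; exact ⟨mem_univ _, hl0, hfat⟩) rfl
    (C.Jz J z * p) (by
      set Jo := J.filter (fun l => C.ok z l) with hJo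
      have e1 : ((tr C X l0 ×ˢ (X \ tr C X l0)).filter (fun q => th q.1 q.2)) ⊆
          Jo.biUnion (fun l => ((tr C X l0).filter (fun x => C.on x l)) ×ˢ
            (univ.filter (fun y => C.on y l))) := by
        intro q hq
        rw [mem_filter, mem_product, mem_sdiff] at hq
        obtain ⟨⟨m1, m2, m3⟩, l, hl1, hl2, hok, hlt⟩ := hq
        have hne : q.1 ≠ q.2 := fun h => m3 (h ▸ m1)
        have hmem : l ∈ J.filter (fun l => C.ok z l) := by
          refine thin_mem C z hJ hok hlt ?_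
          refine one_lt_card.mpr ⟨q.1, ?_, q.2, ?_, hne⟩
          · exact mem_filter.mpr ⟨(mem_filter.mp m1).1, hl1⟩
          · exact mem_filter.mpr ⟨m2, hl2⟩
        rw [mem_biUnion]
        exact ⟨l, hmem, mem_product.mpr ⟨mem_filter.mpr ⟨m1, hl1⟩,
          mem_filter.mpr ⟨mem_univ _, hl2⟩⟩⟩
      have e9 : C.Jz J z = Jo.card := rfl
      rw [e9]
      have e7 := card_le_card e1
      refine le_trans (le_of_eq (by congr!)) (e7.trans (card_biUnion_le_card_mul _ _ p ?_))
      intro l hl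
      rw [card_product]
      have hlt : C.tl l < p := hJ.thin l (mem_filter.mp hl).1
      have e2 : ((tr C X l0).filter (fun x => C.on x l)).card ≤ 1 := by
        rw [card_le_one]
        intro x hx y hy
        by_contra hne
        have := C.uniq x y l l0 hne (mem_filter.mp hx).2 (mem_filter.mp hy).2
          (mem_filter.mp (mem_filter.mp hx).1).2 (mem_filter.mp (mem_filter.mp hy).1).2
        rw [this] at hlt
        omega
      have e3 : (univ.filter (fun y => C.on y l)).card ≤ p := by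
        unfold Cone.tl at hlt
        omega
      calc _ ≤ 1 * p := Nat.mul_le_mul e2 e3
        _ = p := one_mul p)
  have h4 := card_Xs_Bs C (D := a) (J := J) (al := al) (be := be) z
  have h5 := Bs_le C z hJ
  rw [← hX, ← hNd] at h4
  set B := (Bs C a J al be z).card with hB
  set Jn := C.Jz J z with hJn
  have hBl : B * 2999 ≤ 2 * Jn := by
    have e1 : B * 2999 ≤ B * (a - 1) := Nat.mul_le_mul_left _ (by omega)
    omega
  -- reals
  have ht0p : 10 * p ≤ t0 := hbig
  have hNr : (0 : ℝ) < N := by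
    have : 0 < N := by omega
    exact_mod_cast this
  have ht0r : (10 : ℝ) * p ≤ t0 := by exact_mod_cast ht0p
  have hp1r : (1 : ℝ) ≤ p := by exact_mod_cast hp1
  have hN0r : (100 : ℝ) * t0 ≤ N := by exact_mod_cast hN0
  have ht0pos : (0 : ℝ) < t0 := by linarith
  have hden : (0 : ℝ) < (N : ℝ) - t0 := by linarith
  have hFz : (∑ l ∈ Ft, ((tr C X l).card : ℝ)) / (t0 * ((N : ℝ) - t0)) ≤ C.Fz p z := by
    unfold Cone.Fz
    rw [sum_div]
    refine sum_le_sum fun l hl => ?_
    have hl' := hl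
    rw [mem_filter] at hl'
    have e1 := tr_le_tl C X l
    have e2 := hmax l hl'.2.1 hl'.2.2
    have e3 := htls l
    have e1r : ((tr C X l).card : ℝ) ≤ C.tl l := by exact_mod_cast e1
    have e2r : ((tr C X l).card : ℝ) ≤ t0 := by exact_mod_cast e2
    have e3r : (100 : ℝ) * C.tl l ≤ N := by
      have : 100 * C.tl l ≤ N := by omega
      exact_mod_cast this
    have e4 : (0 : ℝ) < (N : ℝ) - C.tl l := by
      have : (0 : ℝ) ≤ C.tl l := Nat.cast_nonneg _
      linarith
    rw [div_le_div_iff₀ (mul_pos ht0pos hden) e4]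
    have e5 : (0 : ℝ) ≤ ((tr C X l).card : ℝ) := Nat.cast_nonneg _
    nlinarith [mul_nonneg (sub_nonneg.mpr e2r) (by linarith : (0 : ℝ) ≤ (N : ℝ) - t0 - (tr C X l).card),
      mul_nonneg e5 (sub_nonneg.mpr e1r)]
  have keyr : (t0 : ℝ) * ((t0 : ℝ) - 1) * ((X.card : ℝ) + 1) ≤
      ((t0 : ℝ) - 1) * (∑ l ∈ Ft, ((tr C X l).card : ℝ)) + t0 * (Jn * p) +
        t0 * ((t0 : ℝ) - 1) * t0 := by
    have e1 : 1 ≤ t0 := by omega
    have := (Nat.cast_le (α := ℝ)).mpr key
    push_cast [Nat.cast_sub e1] at this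
    linarith
  set T : ℝ := ∑ l ∈ Ft, ((tr C X l).card : ℝ) with hT
  have hXr : (N : ℝ) ≤ X.card + B + 1 := by exact_mod_cast h4
  have hBr : (B : ℝ) * 2999 ≤ 2 * Jn := by exact_mod_cast hBl
  have hJr : (0 : ℝ) ≤ Jn := Nat.cast_nonneg _
  -- T / t0 is at least (card + 1 - t0) - Jn / 9
  have ht1 : (0 : ℝ) < (t0 : ℝ) - 1 := by linarith
  have hT1 : (t0 : ℝ) * ((X.card : ℝ) + 1 - t0 - Jn / 9) ≤ T := by
    have e1 : (p : ℝ) ≤ ((t0 : ℝ) - 1) / 9 := by linarith
    have e2 : (Jn : ℝ) * p ≤ Jn * (((t0 : ℝ) - 1) / 9) := mul_le_mul_of_nonneg_left e1 hJr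
    have e3 : (t0 : ℝ) * (Jn * p) ≤ t0 * (Jn * (((t0 : ℝ) - 1) / 9)) :=
      mul_le_mul_of_nonneg_left e2 ht0pos.le
    have e4 : ((t0 : ℝ) - 1) * ((t0 : ℝ) * ((X.card : ℝ) + 1 - t0 - Jn / 9)) ≤
        ((t0 : ℝ) - 1) * T := by nlinarith
    exact le_of_mul_le_mul_left e4 ht1
  have hF2 : ((N : ℝ) - t0 - B - Jn / 9) / ((N : ℝ) - t0) ≤ C.Fz p z := by
    refine le_trans ?_ hFz
    rw [div_le_div_iff₀ hden (mul_pos ht0pos hden)]
    have e1 : (t0 : ℝ) * ((N : ℝ) - t0 - B - Jn / 9) ≤ T := by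
      refine le_trans (mul_le_mul_of_nonneg_left ?_ ht0pos.le) hT1
      linarith
    nlinarith [mul_le_mul_of_nonneg_right e1 hden.le]
  refine le_trans ?_ (add_le_add_left hF2 _)
  have e5 : (Jn : ℝ) / (4 * N) * ((N : ℝ) - t0) ≥ Jn * (99 / 400) := by
    rw [ge_iff_le, div_mul_eq_mul_div, le_div_iff₀ (by positivity)]
    nlinarith [mul_nonneg hJr (by linarith : (0 : ℝ) ≤ (N : ℝ) - 100 * t0)]
  have e6 : (1 : ℝ) * ((N : ℝ) - t0) ≤
      (((N : ℝ) - t0 - B - Jn / 9) / ((N : ℝ) - t0) + (Jn : ℝ) / (4 * N)) * ((N : ℝ) - t0) := by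
    rw [add_mul, div_mul_cancel₀ _ hden.ne']
    linarith
  exact le_of_mul_le_mul_right e6 hden

/-- **(DEF)** -/
theorem def_sum (C : Cone Y U E G P R) {a : ℕ} (ha : 3000 ≤ a)
    (hN : a ^ 40 ≤ Fintype.card Y) (_hN2 : Fintype.card Y ≤ 2 * a ^ 40) (hs : C.s ≤ a ^ 34)
    {J : Finset E} {al be : E → Y} (hJ : C.Fam (a ^ 19) a J al be) (z : U) :
    (1 : ℝ) ≤ C.Fz (a ^ 19) z + (C.Jz J z : ℝ) / (4 * Fintype.card Y) := by
  have hN1 : 1 ≤ Fintype.card Y := (Nat.one_le_pow _ _ (by omega)).trans hN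
  have hNr : (0 : ℝ) < Fintype.card Y := by exact_mod_cast hN1
  have hFz0 : 0 ≤ C.Fz (a ^ 19) z := by
    unfold Cone.Fz
    refine sum_nonneg fun l hl => ?_
    rw [mem_filter] at hl
    have h1 := tl_lt C hl.2.1
    have h2 : (C.tl l : ℝ) + 1 ≤ Fintype.card Y := by exact_mod_cast h1
    exact div_nonneg zero_le_one (by linarith)
  rcases le_or_gt (4 * Fintype.card Y) (C.Jz J z) with hbig | hsm
  · have h1 : (1 : ℝ) ≤ (C.Jz J z : ℝ) / (4 * Fintype.card Y) := by
      rw [one_le_div (by positivity)]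
      exact_mod_cast hbig
    linarith
  by_cases hex : ∃ l, C.ok z l ∧ a ^ 19 ≤ C.tl l ∧
      10 * a ^ 19 ≤ (tr C (Xs C a J al be z) l).card
  · -- a fat allowed line with the largest trace
    obtain ⟨l1, h1, h2, h3⟩ := hex
    obtain ⟨l0, hl0, hmax⟩ := exists_max_image
      (univ.filter (fun l => C.ok z l ∧ a ^ 19 ≤ C.tl l))
      (fun l => (tr C (Xs C a J al be z) l).card)
      ⟨l1, mem_filter.mpr ⟨mem_univ _, h1, h2⟩⟩
    rw [mem_filter] at hl0
    refine case_large C ha hN hs hJ z hl0.2.1 hl0.2.2 ?_ ?_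
    · exact h3.trans (hmax l1 (mem_filter.mpr ⟨mem_univ _, h1, h2⟩))
    · intro l hl hlf
      exact hmax l (mem_filter.mpr ⟨mem_univ _, hl, hlf⟩)
  · push Not at hex
    have hall : ∀ l, C.ok z l → (tr C (Xs C a J al be z) l).card ≤ 10 * a ^ 19 := by
      intro l hl
      rcases le_or_gt (a ^ 19) (C.tl l) with h | h
      · exact (hex l hl h).le
      · have := tr_le_tl C (Xs C a J al be z) l
        omega
    have h1 := case_small C ha hN hs hJ z hsm hall
    have h2 : (1 : ℝ) ≤ C.Fz (a ^ 19) z := by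
      unfold Cone.Fz
      have h3 : ∑ _l ∈ univ.filter (fun l => C.ok z l ∧ a ^ 19 ≤ C.tl l),
          (1 : ℝ) / (Fintype.card Y : ℝ) ≤
          ∑ l ∈ univ.filter (fun l => C.ok z l ∧ a ^ 19 ≤ C.tl l),
          (1 : ℝ) / ((Fintype.card Y : ℝ) - C.tl l) := by
        refine sum_le_sum fun l hl => ?_
        rw [mem_filter] at hl
        have h4 := tl_lt C hl.2.1
        have h5 : (C.tl l : ℝ) + 1 ≤ Fintype.card Y := by exact_mod_cast h4
        have h6 : (0 : ℝ) ≤ C.tl l := Nat.cast_nonneg _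
        exact one_div_le_one_div_of_le (by linarith) (by linarith)
      refine le_trans ?_ h3
      rw [sum_const, nsmul_eq_mul, mul_one_div, one_le_div hNr]
      exact_mod_cast h1
    have h3 : (0 : ℝ) ≤ (C.Jz J z : ℝ) / (4 * Fintype.card Y) := by positivity
    linarith

end Pool.Agent.Helper48.RF
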